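import Mathlib

/-!
# Sets containing k-term progressions of every difference up to N (MP_87ec9a_co)

`m(N, k) ≤ 2 k² N^(1 - log(4/3)/log(2k))` for all `N, k ≥ 1`.

Proof idea.  Write `d = ∑ sᵢ bⁱ` with `b = 2k` and start the progression at `a = ∑ φ(sᵢ) bⁱ` with
`φ(s) = 4k² + k s - s²`.  For `j < k` the value `φ(s) + j s` is symmetric about `(k + j)/2`, so it
takes at most `3k/2` of the possible `2k` values as `s` runs over the digits.
-/

open Finset

namespace Pool.Agent.Results.MP_87ec9a_co.PowerSaving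

/-- `A` contains a `k`-term progression of each common difference `1, …, N`. -/
def Contains (N k : ℕ) (A : Finset ℕ) : Prop :=
  ∀ d : ℕ, 1 ≤ d → d ≤ N → ∃ a : ℕ, ∀ i < k, a + i * d ∈ A

/-- The least cardinality `m(N, k)` of such a set. -/
noncomputable def mNk (N k : ℕ) : ℕ := sInf {n | ∃ A : Finset ℕ, A.card = n ∧ Contains N k A}

theorem sum_digits (b : ℕ) (hb : 0 < b) : ∀ (L d : ℕ), d < b ^ L →
    ∑ i ∈ range L, (d / b ^ i % b) * b ^ i = d := by
  intro L
  induction L with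
  | zero =>
    intro d hd
    simp at hd
    simp [hd]
  | succ L ih =>
    intro d hd
    rw [Finset.sum_range_succ']
    have h1 : d / b < b ^ L := by
      rw [Nat.div_lt_iff_lt_mul hb, ← pow_succ]
      exact hd
    have h2 := ih (d / b) h1
    have h3 : ∀ i ∈ range L, (d / b ^ (i + 1) % b) * b ^ (i + 1) =
        b * ((d / b / b ^ i % b) * b ^ i) := by
      intro i _
      rw [Nat.div_div_eq_div_mul, pow_succ, Nat.mul_comm (b ^ i) b]
      ring
    rw [Finset.sum_congr rfl h3, ← Finset.mul_sum, h2]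
    simp only [pow_zero, Nat.div_one, mul_one]
    exact Nat.div_add_mod d b

/-- The digit map. -/
def phi (k s : ℕ) : ℕ := 4 * k ^ 2 + k * s - s ^ 2

/-- The values of the digits of the `j`-th terms. -/
def vals (k j : ℕ) : Finset ℕ := (range (2 * k)).image fun s => phi k s + j * s

theorem card_vals {k j : ℕ} (hj : j < k) : 2 * (vals k j).card ≤ 3 * k := by
  have hsub : vals k j ⊆ ((range (2 * k)).filter fun s => k + j ≤ 2 * s).image
      fun s => phi k s + j * s := by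
    intro x hx
    rw [vals, mem_image] at hx
    obtain ⟨s, hs, rfl⟩ := hx
    rw [mem_range] at hs
    rw [mem_image]
    by_cases h : k + j ≤ 2 * s
    · exact ⟨s, mem_filter.2 ⟨mem_range.2 hs, h⟩, rfl⟩
    · refine ⟨k + j - s, mem_filter.2 ⟨mem_range.2 (by omega), by omega⟩, ?_⟩
      obtain ⟨t, ht⟩ : ∃ t, k + j = s + t := ⟨k + j - s, by omega⟩
      have e1 : k + j - s = t := by omega
      rw [e1]
      have b1 : s ^ 2 ≤ 4 * k ^ 2 := by
        have : s ≤ 2 * k := by omega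
        nlinarith
      have b2 : t ^ 2 ≤ 4 * k ^ 2 := by
        have : t ≤ 2 * k := by omega
        nlinarith
      unfold phi
      have c1 : s ^ 2 ≤ 4 * k ^ 2 + k * s := by omega
      have c2 : t ^ 2 ≤ 4 * k ^ 2 + k * t := by omega
      zify [c1, c2]
      have ht' : (j : ℤ) = s + t - k := by
        have : ((k + j : ℕ) : ℤ) = ((s + t : ℕ) : ℤ) := by rw [ht]
        push_cast at this
        linarith
      rw [ht']
      ring
  have h1 := (Finset.card_le_card hsub).trans Finset.card_image_le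
  have h2 : ((range (2 * k)).filter fun s => k + j ≤ 2 * s) ⊆ Finset.Ico ((k + 1) / 2) (2 * k) := by
    intro s hs
    rw [mem_filter, mem_range] at hs
    rw [mem_Ico]
    omega
  have h3 := Finset.card_le_card h2
  rw [Nat.card_Ico] at h3
  omega

/-- The numbers `∑ xᵢ bⁱ` with all `xᵢ` in `V`. -/
def span (b L : ℕ) (V : Finset ℕ) : Finset ℕ :=
  (Fintype.piFinset fun _ : Fin L => V).image fun x => ∑ i : Fin L, x i * b ^ (i : ℕ)

theorem card_span (b L : ℕ) (V : Finset ℕ) : (span b L V).card ≤ V.card ^ L := by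
  refine Finset.card_image_le.trans ?_
  rw [Fintype.card_piFinset]
  simp

theorem contains_union {N k L : ℕ} (hk : 0 < k) (hN : N < (2 * k) ^ L) :
    Contains N k ((range k).biUnion fun j => span (2 * k) L (vals k j)) := by
  intro d _ hd
  refine ⟨∑ i : Fin L, phi k (d / (2 * k) ^ (i : ℕ) % (2 * k)) * (2 * k) ^ (i : ℕ), ?_⟩
  intro j hj
  rw [mem_biUnion]
  refine ⟨j, mem_range.2 hj, ?_⟩
  rw [span, mem_image]
  refine ⟨fun i => phi k (d / (2 * k) ^ (i : ℕ) % (2 * k)) + j * (d / (2 * k) ^ (i : ℕ) % (2 * k)),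
    ?_, ?_⟩
  · rw [Fintype.mem_piFinset]
    intro i
    rw [vals, mem_image]
    exact ⟨_, mem_range.2 (Nat.mod_lt _ (by omega)), rfl⟩
  · have h1 := sum_digits (2 * k) (by omega) L d (lt_of_le_of_lt hd hN)
    rw [← Fin.sum_univ_eq_sum_range (fun i => (d / (2 * k) ^ i % (2 * k)) * (2 * k) ^ i) L] at h1
    have h2 : j * d = j * ∑ i : Fin L, (d / (2 * k) ^ (i : ℕ) % (2 * k)) * (2 * k) ^ (i : ℕ) := by
      rw [h1]
    rw [h2, Finset.mul_sum, ← Finset.sum_add_distrib]
    refine Finset.sum_congr rfl fun i _ => ?_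
    ring

theorem mNk_le {N k L : ℕ} (hk : 0 < k) (hN : N < (2 * k) ^ L) :
    (mNk N k : ℝ) ≤ k * (3 * k / 2 : ℝ) ^ L := by
  have h1 : mNk N k ≤ ((range k).biUnion fun j => span (2 * k) L (vals k j)).card :=
    Nat.sInf_le ⟨_, rfl, contains_union hk hN⟩
  have h2 : (((range k).biUnion fun j => span (2 * k) L (vals k j)).card : ℝ) ≤
      ∑ j ∈ range k, ((span (2 * k) L (vals k j)).card : ℝ) := by
    exact_mod_cast Finset.card_biUnion_le
  have h3 : ∀ j ∈ range k, ((span (2 * k) L (vals k j)).card : ℝ) ≤ (3 * k / 2 : ℝ) ^ L := by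
    intro j hj
    have h4 : ((span (2 * k) L (vals k j)).card : ℝ) ≤ ((vals k j).card : ℝ) ^ L := by
      exact_mod_cast card_span (2 * k) L (vals k j)
    refine h4.trans (pow_le_pow_left₀ (by positivity) ?_ L)
    have h5 := card_vals (mem_range.1 hj)
    have h6 : (2 : ℝ) * (vals k j).card ≤ 3 * k := by exact_mod_cast h5
    linarith
  have h7 := h2.trans (Finset.sum_le_sum h3)
  rw [Finset.sum_const, Finset.card_range, nsmul_eq_mul] at h7
  exact le_trans (by exact_mod_cast h1) h7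

/-- `m(N, k) ≤ 2 k² N^(1 - log(4/3)/log(2k))` for all `N, k ≥ 1`. -/
theorem result (N k : ℕ) (hN : 1 ≤ N) (hk : 1 ≤ k) :
    (mNk N k : ℝ) ≤ 2 * (k : ℝ) ^ 2 *
      (N : ℝ) ^ (1 - Real.log (4 / 3) / Real.log (2 * (k : ℝ))) := by
  have hb : 1 < 2 * k := by omega
  have hk' : (1 : ℝ) ≤ k := by exact_mod_cast hk
  have hb' : (1 : ℝ) < 2 * (k : ℝ) := by linarith
  have hN' : (0 : ℝ) < N := by exact_mod_cast hN
  have hlogb : 0 < Real.log (2 * (k : ℝ)) := Real.log_pos hb'
  set L := Nat.log (2 * k) N + 1 with hL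
  have h1 : N < (2 * k) ^ L := Nat.lt_pow_succ_log_self hb N
  have h2 : (2 * k) ^ L ≤ 2 * k * N := by
    rw [hL, pow_succ, Nat.mul_comm]
    exact Nat.mul_le_mul_left _ (Nat.pow_log_le_self _ (by omega))
  have h1' : (N : ℝ) ≤ (2 * (k : ℝ)) ^ L := by
    have : (N : ℝ) ≤ ((2 * k) ^ L : ℕ) := by exact_mod_cast h1.le
    simpa using this
  have h2' : (2 * (k : ℝ)) ^ L ≤ 2 * k * N := by
    have : (((2 * k) ^ L : ℕ) : ℝ) ≤ ((2 * k * N : ℕ) : ℝ) := by exact_mod_cast h2
    push_cast at this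
    exact this
  set κ := Real.log (4 / 3) / Real.log (2 * (k : ℝ)) with hκ
  have hκ0 : 0 ≤ κ := div_nonneg (Real.log_nonneg (by norm_num)) hlogb.le
  have h3 : ((3 : ℝ) / 4) ^ L = ((2 * (k : ℝ)) ^ L) ^ (-κ) := by
    have e1 : (2 * (k : ℝ)) ^ (-κ) = 3 / 4 := by
      rw [Real.rpow_def_of_pos (by linarith), hκ]
      have : Real.log (2 * (k : ℝ)) * -(Real.log (4 / 3) / Real.log (2 * (k : ℝ))) =
          Real.log ((4 / 3 : ℝ)⁻¹) := by
        rw [Real.log_inv]
        field_simp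
      rw [this, Real.exp_log (by norm_num)]
      norm_num
    rw [← e1, ← Real.rpow_natCast, ← Real.rpow_natCast, ← Real.rpow_mul (by positivity),
      ← Real.rpow_mul (by positivity)]
    congr 1
    ring
  have h4 : ((2 * (k : ℝ)) ^ L) ^ (-κ) ≤ (N : ℝ) ^ (-κ) := by
    rw [Real.rpow_neg (by positivity), Real.rpow_neg hN'.le]
    exact inv_anti₀ (Real.rpow_pos_of_pos hN' _) (Real.rpow_le_rpow hN'.le h1' hκ0)
  have h5 := mNk_le (by omega : 0 < k) h1
  refine h5.trans ?_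
  have h6 : (3 * (k : ℝ) / 2) ^ L = (2 * (k : ℝ)) ^ L * (3 / 4) ^ L := by
    rw [← mul_pow]
    congr 1
    ring
  rw [h6, h3]
  have h7 : (2 * (k : ℝ)) ^ L * ((2 * (k : ℝ)) ^ L) ^ (-κ) ≤ (2 * k * N) * (N : ℝ) ^ (-κ) :=
    mul_le_mul h2' h4 (Real.rpow_nonneg (by positivity) _) (by positivity)
  have h8 : (N : ℝ) ^ (1 - κ) = N * (N : ℝ) ^ (-κ) := by
    rw [sub_eq_add_neg, Real.rpow_add hN', Real.rpow_one]
  rw [h8]
  calc (k : ℝ) * ((2 * (k : ℝ)) ^ L * ((2 * (k : ℝ)) ^ L) ^ (-κ))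
      ≤ k * ((2 * k * N) * (N : ℝ) ^ (-κ)) := mul_le_mul_of_nonneg_left h7 (by positivity)
    _ = 2 * (k : ℝ) ^ 2 * (N * (N : ℝ) ^ (-κ)) := by ring

end Pool.Agent.Results.MP_87ec9a_co.PowerSaving
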